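import Mathlib
import Pool.Agent.H43.Split4

set_option autoImplicit false

namespace Pool.Agent.Results.MP_ef395a_gt.Characterization

open TopologicalSpace Pool.Agent.H43.Split

/-- For a separable metrizable space `Y`, all products `X × Y` with compact metrizable spaces `X`
satisfy `Split(Λ, Λ)` if and only if `Y` satisfies both `Split(Λ, Λ)` and Menger's property. -/
theorem result (Y : Type) [TopologicalSpace Y] [MetrizableSpace Y] [SeparableSpace Y] :
    (∀ (X : Type) [TopologicalSpace X] [MetrizableSpace X] [CompactSpace X], SplitLL (X × Y)) ↔
      SplitLL Y ∧ Menger Y := by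
  have hsec := secondCountable_of_metrizable_separable Y
  constructor
  · intro h
    exact ⟨(h Unit).splitSeq.of_prod_unit.splitLL, menger_of_splitLL_prod (h (ℕ → ℕ → Bool))⟩
  · rintro ⟨h, hM⟩ X _ _ _
    exact h.prod_of_menger hM

end Pool.Agent.Results.MP_ef395a_gt.Characterization
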