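import Mathlib
import Pool.Agent.H43.Split4

set_option autoImplicit false

namespace Pool.Agent.Results.MP_ef395a_gt.Independence

open TopologicalSpace Pool.Agent.H43.Split

/-- If `𝔡 < 𝔯`, there are a compact space `X` and a space `Y` satisfying `Split(Λ, Λ)` whose
product does not satisfy `Split(Λ, Λ)`; if `𝔲 < 𝔤`, then products of compact spaces with spaces
satisfying `Split(Λ, Λ)` satisfy `Split(Λ, Λ)`. All spaces are separable metrizable. -/
theorem result :
    (dominatingNumber < reapingNumber →
      ∃ (X Y : Type) (_ : TopologicalSpace X) (_ : TopologicalSpace Y), MetrizableSpace X ∧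
        SeparableSpace X ∧ CompactSpace X ∧ MetrizableSpace Y ∧ SeparableSpace Y ∧
        SplitLL Y ∧ ¬ SplitLL (X × Y)) ∧
    (ultrafilterNumber < groupwiseDensityNumber →
      ∀ (X Y : Type) [TopologicalSpace X] [TopologicalSpace Y] [MetrizableSpace X]
        [SeparableSpace X] [CompactSpace X] [MetrizableSpace Y] [SeparableSpace Y],
        SplitLL Y → SplitLL (X × Y)) := by
  constructor
  · intro h
    obtain ⟨D, hDc, hD⟩ := exists_dominating
    refine ⟨ℕ → ℕ → Bool, D, inferInstance, inferInstance, inferInstance, inferInstance,
      inferInstance, inferInstance, inferInstance, ?_, fun hcon => ?_⟩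
    · exact (splitSeq_of_lt (hDc ▸ h)).splitLL
    · exact not_menger_of_dominating hD (menger_of_splitLL_prod hcon)
  · intro h X Y _ _ _ _ _ _ _ hY
    have hsec := secondCountable_of_metrizable_separable Y
    exact hY.prod_of_menger (menger_of_lt h hY.splitSeq)

end Pool.Agent.Results.MP_ef395a_gt.Independence
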