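import Pool.Agent.SP45.Nsp
import Pool.Agent.ML45.Fin

/-!
# MP_ef395a_gt, Q1: the question is independent of ZFC

Neither the statement of Q1 nor its negated form is provable in ZFC: there is a model of ZFC which
satisfies the negated form, and there is a model of ZFC which satisfies the statement of Q1.  No
assumption beyond ZFC is used.

* `ZFC E` (file `Pool/Agent/BVM/Fml.lean`): `(M, E)` is a model of ZFC.
* `Omega` (file `Pool/Agent/BVM/Notions.lean`): `w` is `ω`.
* `Space`, `Compact`, `Split`, `ProdSpace` (file `Pool/Agent/SP45/Defs.lean`): separable metrizable
  spaces (given by a countable base of a regular `T₁` topology), compactness, the property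
  `Split(Λ, Λ)` and products of spaces, relativized to `(M, E)`.

Both models are quotients, by an ultrafilter, of the Boolean-valued universe over the regular open
algebra of a poset.

* The model of the negated form: the poset is `σ`-closed.  A condition is a countable subset `A` of
  `ω^ω` together with an infinite set `a t` of natural numbers for each finite sequence `t`.  An
  extension `(B, b)` of `(A, a)` satisfies `A ⊆ B`, `b t ⊆ a t` for all but finitely many `t`, and
  `y i ∈ a (y ↾ i)` for all but finitely many `i`, for each `y` in `B ∖ A`.  The space `Y` is the
  union of the sets `A` of the conditions in the generic filter, and `X` is the Cantor space.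
* The model of the statement of Q1: the poset is the monoid `Hm I` of all maps of the product of
  `I` copies of `ω^ω` into itself which are, in each coordinate and given the lower coordinates, a
  homeomorphism of `ω^ω` onto the set of branches of a superperfect tree, for a long well-ordered
  set `I`; the order is divisibility.  It is a form of the countable support iteration of Miller
  forcing.  In this model each space `Y` with `Split(Λ, Λ)` has the property needed for the
  products with compact spaces.
-/

namespace Pool.Agent.Results.MP_ef395a_gt.IndependenceUnconditional

open Pool.Agent.BVM Pool.Agent.MAx Pool.Agent.SP45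
open Pool.Agent.OG45 (exists_gg)

/-- **Main theorem.**  (1) There is a model `(M, E)` of ZFC, with `w = ω`, in which there are a
compact space `X` (with base `B`) and a space `Y` (with base `C`) which satisfies `Split(Λ, Λ)` such
that the product space `Z = X × Y` (with base `D`) does not satisfy `Split(Λ, Λ)`.  (2) There is a
model `(M, E)` of ZFC, with `w = ω`, in which the product `Z = X × Y` of each compact space `X` and
each space `Y` which satisfies `Split(Λ, Λ)` satisfies `Split(Λ, Λ)`.  All spaces are separable
metrizable. -/
theorem result :
    (∃ (M : Type 1) (E : M → M → Prop), ZFC E ∧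
      ∃ w X B Y C Z D : M, Omega E w ∧ Space E w X B ∧ Compact E w X B ∧ Space E w Y C ∧
        Split E w Y C ∧ ProdSpace E Z D X B Y C ∧ Space E w Z D ∧ ¬ Split E w Z D) ∧
    (∃ (M : Type 1) (E : M → M → Prop), ZFC E ∧
      ∃ w : M, Omega E w ∧ ∀ X B Y C Z D : M, Space E w X B → Compact E w X B → Space E w Y C →
        Split E w Y C → ProdSpace E Z D X B Y C → Split E w Z D) := by
  constructor
  · obtain ⟨F, -⟩ := exists_gg cond0
    exact ⟨Md F, In F, zfc F.1, nm F (onT ℕ), nm F (XN Cond), nm F (XB Cond), nm F YN, nm F YB,
      nm F ZN, nm F ZB, omega_onT F.1, space_X F, compact_X sigma_cond F, space_Y F, split_Y F,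
      prodSpace disc_xn disc_yn cyb cyl F, space_Z F, not_split_Z F⟩
  · obtain ⟨F, -⟩ := exists_gg (1 : ML45.Hm ML45.IM)
    exact ⟨Md F, In F, zfc F.1, nm F (onT ℕ), omega_onT F.1,
      fun X B Y C Z D hX hc hY hS hZ => ML45.split_model F X B Y C Z D hX hc hY hS hZ⟩

end Pool.Agent.Results.MP_ef395a_gt.IndependenceUnconditional
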